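import Pool.Agent.H58.XRay3

namespace Pool.Agent.Results.MP_605763_gt.Formula
open Pool.Agent.H58.XRay Pool.Agent.H58 Module Set

theorem result (n k N : ℕ) (h1 : 1 < k) (h2 : k ≤ n - 1)
    (hN : N = if 3 * k ≤ n + 1 then 3
      else max 4 ⌈((n + 1).choose 2 : ℚ) / ((n - k + 1).choose 2 : ℚ)⌉₊) :
    IsLeast {m | Works (V := E n) Determined k m} N ∧
    IsLeast {m | Works (V := E n) DeterminedAE k m} N := by
  classical
  have p : (0 : ℚ) < (n - k + 1).choose 2 := by exact_mod_cast Nat.choose_pos (by omega)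
  have w : ∀ {𝒮 : Finset (Submodule ℝ (E n))} {A}, DeterminedAE 𝒮 A → Determined 𝒮 A :=
    fun h A' a b c => h A' a b fun S hS => .of_eq (c S hS)
  have lo : ∀ 𝒮 : Finset (Submodule ℝ (E n)), (∀ S ∈ 𝒮, finrank ℝ S = k) →
      (∀ A, IsEllipsoid A → Determined 𝒮 A) → N ≤ 𝒮.card := fun 𝒮 hk hd => by
    by_contra hc
    obtain ⟨A, a, b⟩ := not_det (by omega) (𝒮 := 𝒮) (by
      have ne : ∀ S ∈ 𝒮, ∃ u ∈ S, u ≠ 0 := fun S hS => (Submodule.ne_bot_iff _).1 fun e => by
        have := hk S hS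
        rw [e, finrank_bot] at this; omega
      obtain ⟨m, f, hm, hf⟩ : ∃ (m : ℕ) (f : Fin m → Submodule ℝ (E n)), 𝒮.card = m ∧
          (𝒮 : Set _) = range f := ⟨_, (↑) ∘ 𝒮.equivFin.symm, rfl, by
        rw [𝒮.equivFin.symm.surjective.range_comp]; simp⟩
      have mf : ∀ i, f i ∈ 𝒮 := fun i => by rw [← Finset.mem_coe, hf]; exact ⟨i, rfl⟩
      rw [hf]
      rw [hm] at hc
      by_cases h : m * (n - k + 1).choose 2 < (n + 1).choose 2
      · exact lowA f (fun i => hk _ (mf i)) h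
      have : ⌈((n + 1).choose 2 : ℚ) / ((n - k + 1).choose 2 : ℚ)⌉₊ ≤ m := by
        rw [Nat.ceil_le, div_le_iff₀ p]; exact_mod_cast not_lt.1 h
      have m0 : m ≠ 0 := by rintro rfl; exact h (by simpa using Nat.choose_pos (by omega))
      by_cases h3 : m = 3
      · subst h3
        exact lowC (k := k) (by split_ifs at hN <;> omega) f fun i => hk _ (mf i)
      obtain ⟨u, hu, u0⟩ := ne _ (mf ⟨0, by omega⟩)
      obtain ⟨z, hz, z0⟩ := ne _ (mf ⟨m - 1, by omega⟩)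
      refine lowB u0 z0 ?_
      rintro _ ⟨⟨i, hi⟩, rfl⟩
      rcases (by split_ifs at hN <;> omega : i = 0 ∨ i = m - 1) with rfl | rfl
      exacts [.inl hu, .inr hz])
    exact b (hd A a)
  obtain ⟨f, hf, hq⟩ := upper (n := n) (k := k) (m := N) (by omega) (ineq (by omega) (by
    split_ifs at hN
    · left; omega
    · refine .inr ⟨by omega, ?_⟩
      have : ((n + 1).choose 2 : ℚ) / ((n - k + 1).choose 2 : ℚ) ≤ N := Nat.ceil_le.1 (by omega)
      rw [div_le_iff₀ p] at this; exact_mod_cast this))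
  have hk : ∀ S ∈ Finset.univ.image f, finrank ℝ S = k := by simpa using hf
  have hd := fun A => det_of (𝒮 := Finset.univ.image f) (A := A) (by omega) (by simpa using hq)
  have hc : (Finset.univ.image f).card = N :=
    le_antisymm (Finset.card_image_le.trans (by simp)) (lo _ hk fun A a => w (hd A a))
  exact ⟨⟨⟨_, hc, hk, fun A a => w (hd A a)⟩, fun m ⟨𝒮, e, a, b⟩ => e ▸ lo 𝒮 a b⟩,
    ⟨_, hc, hk, hd⟩, fun m ⟨𝒮, e, a, b⟩ => e ▸ lo 𝒮 a fun A h => w (b A h)⟩

end Pool.Agent.Results.MP_605763_gt.Formula
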